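import Pool.Agent.Helper30_SkewP4.Stmts

/-!
# ISO, POLY, ETA
-/

set_option autoImplicit false

open scoped Matrix Topology

namespace Pool.Agent.SkewP4.H75

open Pool.Agent.SkewP4

theorem eval_genMat {n : ℕ} (A : Fin 5 → Matrix (Fin n) (Fin n) ℂ) (x : Fin 5 → ℂ) :
    (MvPolynomial.eval x).mapMatrix (genMat A) = evMat A x := by
  unfold genMat evMat
  rw [map_sum]
  refine Finset.sum_congr rfl fun j _ => ?_
  ext a b
  simp [Matrix.smul_apply]

theorem evMat_skew' {n : ℕ} {A : Fin 5 → Matrix (Fin n) (Fin n) ℂ} (hA : ConstRank A)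
    (x : Fin 5 → ℂ) : (evMat A x)ᵀ = -evMat A x := by
  unfold evMat
  rw [Matrix.transpose_sum, ← Finset.sum_neg_distrib]
  refine Finset.sum_congr rfl fun j _ => ?_
  rw [Matrix.transpose_smul, hA.skew, smul_neg]

theorem mapMatrix_smul' {n : ℕ} (x : Fin 5 → ℂ) (c : S) (B : Matrix (Fin n) (Fin n) S) :
    (MvPolynomial.eval x).mapMatrix (c • B) =
      (MvPolynomial.eval x c) • (MvPolynomial.eval x).mapMatrix B := by
  ext a b
  simp [Matrix.smul_apply]

theorem iso (h : TanStmt) : IsoStmt := by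
  intro n A hA i k N Q Q' hQ hi hk j
  set M : Matrix (Fin n) (Fin n) S :=
    ((MvPolynomial.X i : S) ^ N • (1 : Matrix (Fin n) (Fin n) S) - genMat A * Q)
        * (A j).map (MvPolynomial.C : ℂ →+* S)
        * ((MvPolynomial.X k : S) ^ N • (1 : Matrix (Fin n) (Fin n) S) - Q' * genMat A) with hM
  have key : ∀ x : Fin 5 → ℂ, x ≠ 0 → (MvPolynomial.eval x).mapMatrix M = 0 := by
    intro x hx
    have e1 : (MvPolynomial.eval x).mapMatrix M =
        ((x i) ^ N • (1 : Matrix (Fin n) (Fin n) ℂ) -
          evMat A x * (MvPolynomial.eval x).mapMatrix Q) * A j *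
        ((x k) ^ N • (1 : Matrix (Fin n) (Fin n) ℂ) -
          (MvPolynomial.eval x).mapMatrix Q' * evMat A x) := by
      have e2 : (MvPolynomial.eval x).mapMatrix ((A j).map (MvPolynomial.C : ℂ →+* S)) = A j := by
        ext a b; simp
      rw [hM, map_mul, map_mul, map_sub, map_sub, map_mul, map_mul, mapMatrix_smul',
        mapMatrix_smul', map_one, eval_genMat, e2, map_pow, map_pow, MvPolynomial.eval_X,
        MvPolynomial.eval_X]
    have hi' : evMat A x * (MvPolynomial.eval x).mapMatrix Q * evMat A x =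
        (x i) ^ N • evMat A x := by
      have := congrArg (MvPolynomial.eval x).mapMatrix hi
      rw [map_mul, map_mul, mapMatrix_smul', eval_genMat, map_pow, MvPolynomial.eval_X] at this
      exact this
    have hk' : evMat A x * (MvPolynomial.eval x).mapMatrix Q' * evMat A x =
        (x k) ^ N • evMat A x := by
      have := congrArg (MvPolynomial.eval x).mapMatrix hk
      rw [map_mul, map_mul, mapMatrix_smul', eval_genMat, map_pow, MvPolynomial.eval_X] at this
      exact this
    have hQ' : ((MvPolynomial.eval x).mapMatrix Q)ᵀ = -(MvPolynomial.eval x).mapMatrix Q := by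
      ext a b
      have := congrArg (fun B : Matrix (Fin n) (Fin n) S => MvPolynomial.eval x (B a b)) hQ
      simpa using this
    set q := (MvPolynomial.eval x).mapMatrix Q
    set q' := (MvPolynomial.eval x).mapMatrix Q'
    rw [e1]
    ext a b
    have hcol : ∀ c, evMat A x *ᵥ (fun a => ((x k) ^ N • (1 : Matrix (Fin n) (Fin n) ℂ) -
          q' * evMat A x) a c) = 0 := by
      intro c
      have : evMat A x * ((x k) ^ N • (1 : Matrix (Fin n) (Fin n) ℂ) - q' * evMat A x) = 0 := by
        rw [mul_sub, ← mul_assoc, hk', mul_smul_comm, mul_one, sub_self]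
      funext a
      have h2 := congrFun (congrFun this a) c
      exact h2
    have hrow : ∀ c, evMat A x *ᵥ (fun b => ((x i) ^ N • (1 : Matrix (Fin n) (Fin n) ℂ) -
          evMat A x * q) c b) = 0 := by
      intro c
      have h3 : ((x i) ^ N • (1 : Matrix (Fin n) (Fin n) ℂ) - evMat A x * q) * evMat A x = 0 := by
        rw [sub_mul, hi', smul_mul_assoc, one_mul, sub_self]
      have h4 : evMat A x * ((x i) ^ N • (1 : Matrix (Fin n) (Fin n) ℂ) - evMat A x * q)ᵀ = 0 := by
        have := congrArg Matrix.transpose h3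
        rw [Matrix.transpose_mul, evMat_skew' hA, Matrix.transpose_zero, neg_mul, neg_eq_zero]
          at this
        exact this
      funext a
      have h2 := congrFun (congrFun h4 a) c
      exact h2
    have := h n A hA x hx _ _ (hcol b) (hrow a) j
    rw [mul_assoc, Matrix.mul_apply]
    exact this
  have hz : ∀ a b, M a b = 0 := by
    intro a b
    have h1 : (MvPolynomial.X 0 : S) * M a b = 0 := by
      refine MvPolynomial.funext fun x => ?_
      rw [map_mul, MvPolynomial.eval_X, map_zero]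
      by_cases hx : x = 0
      · rw [hx]; simp
      · have := congrFun (congrFun (key x hx) a) b
        have h2 : MvPolynomial.eval x (M a b) = 0 := this
        rw [h2, mul_zero]
    rcases mul_eq_zero.1 h1 with h2 | h2
    · exact absurd h2 (MvPolynomial.X_ne_zero 0)
    · exact h2
  ext1 a b
  exact hz a b

theorem poly (h1 : QexStmt) (h2 : TrqStmt) (h3 : IsoStmt) (h4 : PieStmt) : PolyStmt := by
  intro n A hA
  obtain ⟨N, Q, hQ, hAQ⟩ := h1 n A hA
  obtain ⟨pi, hp1, hp2, hp3⟩ := h4 n A hA
  exact ⟨⟨N, Q, pi, hA.three_le, hA.skew, hQ, hAQ, fun j => h2 n A hA j N (Q j) (hAQ j),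
    fun i j k => h3 n A hA i k N (Q i) (Q k) (hQ i) (hAQ i) (hAQ k) j, hp1, hp2, hp3⟩⟩

/-- the algebra of functions of the model -/
noncomputable def funAlg {Λ : Type} [Ring Λ] [Algebra ℂ Λ] (M : Model Λ) : Subalgebra ℂ Λ where
  carrier := M.G 0 0
  mul_mem' := fun {a b} ha hb => M.mul_mem 0 0 0 0 a b ha hb
  one_mem' := M.one_mem
  add_mem' := fun {a b} ha hb => (M.G 0 0).add_mem ha hb
  zero_mem' := (M.G 0 0).zero_mem
  algebraMap_mem' := fun c => by
    rw [Algebra.algebraMap_eq_smul_one]
    exact (M.G 0 0).smul_mem c M.one_mem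

theorem funAlg_comm {Λ : Type} [Ring Λ] [Algebra ℂ Λ] (M : Model Λ) (a b : funAlg M) :
    a * b = b * a := by
  apply Subtype.ext
  refine M.comm_even a.1 b.1 ?_
  have := M.s_G 0 0 a.1 a.2
  simpa using this

noncomputable instance funAlgComm {Λ : Type} [Ring Λ] [Algebra ℂ Λ] (M : Model Λ) :
    CommRing (funAlg M) :=
  { (inferInstance : Ring (funAlg M)) with mul_comm := funAlg_comm M }

theorem eta : EtaStmt := by
  intro Λ _ _ M N
  let v : Fin 5 → funAlg M := fun j => ⟨M.inc (MvPolynomial.X j), M.inc_mem _⟩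
  have h1 : Ideal.span (Set.range v) = ⊤ := by
    rw [Ideal.eq_top_iff_one, Ideal.mem_span_range_iff_exists_fun]
    refine ⟨fun j => ⟨M.y j, M.y_mem j⟩, ?_⟩
    apply Subtype.ext
    have h2 : ((∑ j, (⟨M.y j, M.y_mem j⟩ : funAlg M) * v j : funAlg M) : Λ) =
        ∑ j, M.inc (MvPolynomial.X j) * M.y j := by
      rw [AddSubmonoidClass.coe_finsetSum]
      refine Finset.sum_congr rfl fun j _ => ?_
      rw [funAlg_comm]
      rfl
    rw [h2, M.sum_y]
    rfl
  have h2 := Ideal.span_pow_eq_top _ h1 N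
  rw [← Set.range_comp, Ideal.eq_top_iff_one, Ideal.mem_span_range_iff_exists_fun] at h2
  obtain ⟨c, hc⟩ := h2
  refine ⟨fun j => (c j : Λ), fun j => (c j).2, ?_⟩
  have h3 : ((∑ j, c j * ((fun x => x ^ N) ∘ v) j : funAlg M) : Λ) = ((1 : funAlg M) : Λ) :=
    congrArg (fun z : funAlg M => (z : Λ)) hc
  rw [AddSubmonoidClass.coe_finsetSum] at h3
  have h4 : ((1 : funAlg M) : Λ) = 1 := rfl
  rw [h4] at h3
  rw [← h3]
  refine Finset.sum_congr rfl fun j _ => ?_
  rw [funAlg_comm]
  rfl

end Pool.Agent.SkewP4.H75
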