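import Pool.Agent.Helper30_SkewP4.Stmts

/-!
# TAN
-/

set_option autoImplicit false

open scoped Matrix Topology

namespace Pool.Agent.SkewP4.H75

open Pool.Agent.SkewP4

theorem exists_ginv {n : ℕ} (A : Matrix (Fin n) (Fin n) ℂ) :
    ∃ Q : Matrix (Fin n) (Fin n) ℂ, A * Q * A = A := by
  obtain ⟨s, hs⟩ := ((Matrix.toLin' A).rangeRestrict).exists_rightInverse_of_surjective
    (Matrix.toLin' A).range_rangeRestrict
  obtain ⟨p, hp⟩ := (LinearMap.range (Matrix.toLin' A)).subtype.exists_leftInverse_of_injective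
    (Submodule.ker_subtype _)
  refine ⟨LinearMap.toMatrix' (s ∘ₗ p), ?_⟩
  apply Matrix.toLin'.injective
  rw [Matrix.toLin'_mul, Matrix.toLin'_mul, Matrix.toLin'_toMatrix']
  refine LinearMap.ext fun x => ?_
  have h1 : p (Matrix.toLin' A x) = (Matrix.toLin' A).rangeRestrict x := by
    have := congrArg (fun f => f ((Matrix.toLin' A).rangeRestrict x)) hp
    exact this
  have h2 : (Matrix.toLin' A).rangeRestrict (s ((Matrix.toLin' A).rangeRestrict x)) =
      (Matrix.toLin' A).rangeRestrict x := by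
    have := congrArg (fun f => f ((Matrix.toLin' A).rangeRestrict x)) hs
    exact this
  have h3 := congrArg Subtype.val h2
  simp only [LinearMap.comp_apply]
  rw [h1]
  exact h3

theorem tan_core {n : ℕ} (A B : Matrix (Fin n) (Fin n) ℂ)
    (hr : ∀ᶠ t in 𝓝[≠] (0 : ℂ), (A + t • B).rank = A.rank) (u v : Fin n → ℂ)
    (hu : A *ᵥ u = 0) (hv : v ᵥ* A = 0) : v ⬝ᵥ (B *ᵥ u) = 0 := by
  obtain ⟨Q, hQ⟩ := exists_ginv A
  let f : ℂ → ℂ := fun t => (1 + t • (Q * B)).det * (v ⬝ᵥ (B *ᵥ u)) -
    t * (v ⬝ᵥ (B *ᵥ ((1 + t • (Q * B)).adjugate *ᵥ (Q *ᵥ (B *ᵥ u)))))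
  have hR : Continuous fun t : ℂ => (1 + t • (Q * B) : Matrix (Fin n) (Fin n) ℂ) :=
    continuous_const.add (continuous_id.smul continuous_const)
  have hf : Continuous f := by
    refine (hR.matrix_det.mul continuous_const).sub (continuous_id.mul ?_)
    refine Continuous.dotProduct continuous_const ?_
    refine Continuous.matrix_mulVec continuous_const ?_
    exact Continuous.matrix_mulVec hR.matrix_adjugate continuous_const
  have hdet : ∀ᶠ t in 𝓝[≠] (0 : ℂ), (1 + t • (Q * B) : Matrix (Fin n) (Fin n) ℂ).det ≠ 0 := by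
    have : ∀ᶠ t in 𝓝 (0 : ℂ), (1 + t • (Q * B) : Matrix (Fin n) (Fin n) ℂ).det ≠ 0 := by
      refine (hR.matrix_det.continuousAt).eventually_ne ?_
      simp
    exact this.filter_mono nhdsWithin_le_nhds
  have hne : ∀ᶠ t in 𝓝[≠] (0 : ℂ), t ≠ 0 := eventually_mem_nhdsWithin
  have key : ∀ᶠ t in 𝓝[≠] (0 : ℂ), f t = 0 := by
    filter_upwards [hr, hdet, hne] with t h1 h2 h3
    let Cs : Submodule ℂ (Fin n → ℂ) := LinearMap.range (Q * A).mulVecLin
    let g : (Fin n → ℂ) →ₗ[ℂ] (Fin n → ℂ) := (A + t • B).mulVecLin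
    have hCs : ∀ c ∈ Cs, Q *ᵥ (A *ᵥ c) = c := by
      rintro c ⟨w, rfl⟩
      simp only [Matrix.mulVecLin_apply, Matrix.mulVec_mulVec]
      rw [← Matrix.mul_assoc A Q A, hQ]
    have hQg : ∀ c ∈ Cs, Q *ᵥ (g c) = (1 + t • (Q * B)) *ᵥ c := by
      intro c hc
      simp only [g, Matrix.mulVecLin_apply, Matrix.add_mulVec, Matrix.mulVec_add,
        Matrix.smul_mulVec, Matrix.mulVec_smul, Matrix.one_mulVec, hCs c hc,
        Matrix.mulVec_mulVec]
    have hinj : Function.Injective (g.domRestrict Cs) := by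
      rw [← LinearMap.ker_eq_bot, LinearMap.ker_eq_bot']
      rintro ⟨c, hc⟩ h4
      have h5 : g c = 0 := h4
      have h6 := hQg c hc
      rw [h5, Matrix.mulVec_zero] at h6
      have h7 := Matrix.eq_zero_of_mulVec_eq_zero h2 h6.symm
      exact Subtype.ext h7
    have hrk : (Q * A).rank = A.rank := by
      refine le_antisymm (Matrix.rank_mul_le_right _ _) ?_
      conv_lhs => rw [← hQ]
      rw [Matrix.mul_assoc]
      exact Matrix.rank_mul_le_right _ _
    have hrange : LinearMap.range (g.domRestrict Cs) = LinearMap.range g := by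
      apply Submodule.eq_of_le_of_finrank_eq
      · rintro _ ⟨c, rfl⟩
        exact ⟨c.1, rfl⟩
      · rw [LinearMap.finrank_range_of_inj hinj]
        have e1 : Module.finrank ℂ Cs = (Q * A).rank := rfl
        have e2 : Module.finrank ℂ (LinearMap.range g) = (A + t • B).rank := rfl
        rw [e1, e2, hrk, h1]
    have hmem : g u ∈ LinearMap.range (g.domRestrict Cs) := by
      rw [hrange]; exact ⟨u, rfl⟩
    obtain ⟨⟨c, hc⟩, h4⟩ := hmem
    have h5 : g c = g u := h4
    have hgu : g u = t • (B *ᵥ u) := by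
      simp only [g, Matrix.mulVecLin_apply, Matrix.add_mulVec, Matrix.smul_mulVec, hu, zero_add]
    have hvg : ∀ w, v ⬝ᵥ g w = t * (v ⬝ᵥ (B *ᵥ w)) := by
      intro w
      simp only [g, Matrix.mulVecLin_apply, Matrix.add_mulVec, Matrix.smul_mulVec,
        dotProduct_add, dotProduct_smul, smul_eq_mul]
      rw [Matrix.dotProduct_mulVec, hv, zero_dotProduct, zero_add]
    have h6 : v ⬝ᵥ (B *ᵥ u) = v ⬝ᵥ (B *ᵥ c) := by
      have := (hvg c).symm.trans ((congrArg (fun z => v ⬝ᵥ z) h5).trans (hvg u))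
      exact (mul_left_cancel₀ h3 this).symm
    have h7 : (1 + t • (Q * B)) *ᵥ c = t • (Q *ᵥ (B *ᵥ u)) := by
      rw [← hQg c hc, h5, hgu, Matrix.mulVec_smul]
    have h8 : (1 + t • (Q * B)).det • c =
        t • ((1 + t • (Q * B)).adjugate *ᵥ (Q *ᵥ (B *ᵥ u))) := by
      have := congrArg (fun z => (1 + t • (Q * B)).adjugate *ᵥ z) h7
      simp only [Matrix.mulVec_mulVec, Matrix.adjugate_mul, Matrix.smul_mulVec,
        Matrix.one_mulVec, Matrix.mulVec_smul] at this
      rw [this]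
      simp only [Matrix.mulVec_mulVec]
    have h9 := congrArg (fun z => v ⬝ᵥ (B *ᵥ z)) h8
    simp only [Matrix.mulVec_smul, dotProduct_smul, smul_eq_mul] at h9
    simp only [f]
    rw [h6, h9, sub_self]
  have h0 : f 0 = 0 := by
    have l1 : Filter.Tendsto f (𝓝[≠] (0 : ℂ)) (𝓝 (f 0)) :=
      (hf.tendsto 0).mono_left nhdsWithin_le_nhds
    have l2 : Filter.Tendsto f (𝓝[≠] (0 : ℂ)) (𝓝 0) :=
      (tendsto_const_nhds (x := (0 : ℂ))).congr' (by
        filter_upwards [key] with t ht using ht.symm)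
    exact tendsto_nhds_unique l1 l2
  simpa [f] using h0

theorem evMat_add_single {n : ℕ} (A : Fin 5 → Matrix (Fin n) (Fin n) ℂ) (x : Fin 5 → ℂ)
    (j : Fin 5) (t : ℂ) : evMat A (x + Pi.single j t) = evMat A x + t • A j := by
  unfold evMat
  simp only [Pi.add_apply, add_smul, Finset.sum_add_distrib]
  congr 1
  rw [Finset.sum_eq_single j]
  · simp
  · intro b _ hb; simp [hb]
  · simp

theorem evMat_skew {n : ℕ} {A : Fin 5 → Matrix (Fin n) (Fin n) ℂ} (hA : ConstRank A)
    (x : Fin 5 → ℂ) : (evMat A x)ᵀ = -evMat A x := by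
  unfold evMat
  rw [Matrix.transpose_sum, ← Finset.sum_neg_distrib]
  refine Finset.sum_congr rfl fun j _ => ?_
  rw [Matrix.transpose_smul, hA.skew, smul_neg]

theorem tan : TanStmt := by
  intro n A hA x hx u v hu hv j
  refine tan_core (evMat A x) (A j) ?_ u v hu ?_
  · have h1 : ∀ᶠ t in 𝓝 (0 : ℂ), x + Pi.single j t ≠ 0 := by
      have hc : Continuous fun t : ℂ => x + (Pi.single j t : Fin 5 → ℂ) := by
        refine continuous_const.add (continuous_pi fun k => ?_)
        simp only [Pi.single_apply]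
        split_ifs
        · exact continuous_id
        · exact continuous_const
      refine hc.continuousAt.eventually_ne ?_
      simpa using hx
    filter_upwards [h1.filter_mono nhdsWithin_le_nhds] with t ht
    have e1 := hA.rk _ ht
    have e2 := hA.rk _ hx
    rw [evMat_add_single] at e1
    omega
  · have h1 := evMat_skew hA x
    have h2 : v ᵥ* (evMat A x) = (evMat A x)ᵀ *ᵥ v := by rw [Matrix.mulVec_transpose]
    rw [h2, h1, Matrix.neg_mulVec, hv, neg_zero]

end Pool.Agent.SkewP4.H75
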